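import Pool.Agent.H73.GWQ.Stmts

/-! Row RGQ of board gwq (MP_213ba5_lc): rigidity. -/

set_option autoImplicit false

open Classical

namespace GWQ

variable {ι G V : Type*} [Fintype ι] [Group G] (C : QCode ι G V)

/-- **RGQ** -/
theorem RGQ (h1 : NEAStmt C.toQM) (h2 : TRNStmt C.toQM) : RGQStmt C := by
  intro m h h' z z' u s R hh hh' hz hz' H
  have hδ := C.hδ
  have key : ∀ i ∈ ({1, 2} : Set ℕ),
      C.d (h * (m * C.c s ^ i)) (h' * (m * C.c s ^ i)) ≤ 30 * C.K := by
    intro i hi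
    obtain ⟨a1, a2, a3, a4, a5, a6⟩ := H i hi
    have b1 := h2 h u (m * C.c s ^ i) z R (19 * C.K) hh hz a1 (by omega) (by omega)
    have b2 := h2 h' u (m * C.c s ^ i) z' R (19 * C.K) hh' hz' a2 (by omega) (by omega)
    have b3 := h1 u (h * (m * C.c s ^ i)) (h' * (m * C.c s ^ i)) (21 * C.K) 0
      (by omega) (by omega) (by omega) (by omega)
    omega
  have k1 := key 1 (by simp)
  have k2 := key 2 (by simp)
  rw [pow_one] at k1
  have e1 : C.nm ((m * C.c s)⁻¹ * h⁻¹ * h' * (m * C.c s)) =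
      C.d (h * (m * C.c s)) (h' * (m * C.c s)) := by
    unfold QM.nm
    rw [← C.inv (h * (m * C.c s)) 1, mul_one]
    congr 1
    group
  have e2 : C.d (C.c s) ((m * C.c s)⁻¹ * h⁻¹ * h' * (m * C.c s) * C.c s) =
      C.d (h * (m * C.c s ^ 2)) (h' * (m * C.c s ^ 2)) := by
    rw [← C.inv (h * (m * C.c s)) (C.c s), pow_two]
    congr 1
    · group
    · group
  refine ⟨?_, ?_⟩
  · rw [e1]
    exact k1
  · rw [e2]
    exact k2

end GWQ
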